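import Pool.Agent.W759.FD.Defs

/-! Project FD (MP_ba6fcf_pr): part P1, bounded orthogonal signs tend weakly to zero. -/

set_option autoImplicit false

namespace Pool.Agent.W300.FD

open MeasureTheory Filter Pool.Agent.W759.FD
open scoped Topology

universe u

theorem bint {Ω : Type u} [MeasurableSpace Ω] {P : Measure Ω} [IsProbabilityMeasure P]
    {f : Ω → ℝ} (hf : Measurable f) (C : ℝ) (h : ∀ ω, |f ω| ≤ C) : Integrable f P :=
  Integrable.of_bound hf.aestronglyMeasurable C (Filter.Eventually.of_forall h)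

theorem sign_abs {x : ℝ} (h : IsSign x) : |x| = 1 := by
  rcases h with h | h <;> rw [h] <;> norm_num

theorem sign_sq {x : ℝ} (h : IsSign x) : x * x = 1 := by
  rcases h with h | h <;> rw [h] <;> norm_num

theorem int3 {Ω : Type u} [MeasurableSpace Ω] {P : Measure Ω} {f g h : Ω → ℝ}
    (hf : Integrable f P) (hg : Integrable g P) (hh : Integrable h P) (c : ℝ) :
    ∫ ω, (f ω + c * g ω + h ω) ∂P = ∫ ω, f ω ∂P + c * ∫ ω, g ω ∂P + ∫ ω, h ω ∂P := by
  have h1 : Integrable (fun ω => f ω + c * g ω) P := hf.add (hg.const_mul c)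
  rw [integral_add h1 hh, integral_add hf (hg.const_mul c), integral_const_mul]

theorem t1 : P1.{u} := by
  intro Ω _ P _ x hx hsx horth ζ hζ hζ1
  set a : ℕ → ℝ := fun c => ∫ ω, ζ ω * x c ω ∂P with ha
  let S : ℕ → Ω → ℝ := fun N ω => ∑ c ∈ Finset.range N, a c * x c ω
  have hSm : ∀ N, Measurable (S N) := fun N =>
    Finset.measurable_fun_sum _ fun c _ => (hx c).const_mul (a c)
  have hSb : ∀ N ω, |S N ω| ≤ ∑ c ∈ Finset.range N, |a c| := by
    intro N ω
    refine (Finset.abs_sum_le_sum_abs _ _).trans (Finset.sum_le_sum fun c _ => ?_)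
    rw [abs_mul, sign_abs (hsx c ω), mul_one]
  have hzx : ∀ c, Integrable (fun ω => ζ ω * x c ω) P := fun c =>
    bint (hζ.mul (hx c)) 1 (fun ω => by
      rw [abs_mul, sign_abs (hsx c ω), mul_one]; exact hζ1 ω)
  have hxx : ∀ c c', Integrable (fun ω => x c ω * x c' ω) P := fun c c' =>
    bint ((hx c).mul (hx c')) 1 (fun ω => by
      rw [abs_mul, sign_abs (hsx c ω), sign_abs (hsx c' ω), mul_one])
  have hA : ∀ N, ∫ ω, ζ ω * S N ω ∂P = ∑ c ∈ Finset.range N, a c ^ 2 := by
    intro N
    have h1 : ∀ ω, ζ ω * S N ω = ∑ c ∈ Finset.range N, a c * (ζ ω * x c ω) := by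
      intro ω
      change ζ ω * ∑ c ∈ Finset.range N, a c * x c ω = _
      rw [Finset.mul_sum]
      exact Finset.sum_congr rfl fun c _ => by ring
    simp only [h1]
    rw [integral_finsetSum _ fun c _ => (hzx c).const_mul (a c)]
    refine Finset.sum_congr rfl fun c _ => ?_
    rw [integral_const_mul, sq]
  have hO : ∀ N, ∫ ω, x N ω * S N ω ∂P = 0 := by
    intro N
    have h1 : ∀ ω, x N ω * S N ω = ∑ c ∈ Finset.range N, a c * (x N ω * x c ω) := by
      intro ω
      change x N ω * ∑ c ∈ Finset.range N, a c * x c ω = _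
      rw [Finset.mul_sum]
      exact Finset.sum_congr rfl fun c _ => by ring
    simp only [h1]
    rw [integral_finsetSum _ fun c _ => (hxx N c).const_mul (a c)]
    refine Finset.sum_eq_zero fun c hc => ?_
    rw [integral_const_mul, horth N c (by have := Finset.mem_range.1 hc; omega), mul_zero]
  have hSS : ∀ N, Integrable (fun ω => S N ω * S N ω) P := fun N =>
    bint ((hSm N).mul (hSm N)) ((∑ c ∈ Finset.range N, |a c|) * (∑ c ∈ Finset.range N, |a c|))
      (fun ω => by
        rw [abs_mul]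
        exact mul_le_mul (hSb N ω) (hSb N ω) (abs_nonneg _) ((abs_nonneg _).trans (hSb N ω)))
  have hxS : ∀ N, Integrable (fun ω => x N ω * S N ω) P := fun N =>
    bint ((hx N).mul (hSm N)) (∑ c ∈ Finset.range N, |a c|)
      (fun ω => by
        rw [abs_mul, sign_abs (hsx N ω), one_mul]; exact hSb N ω)
  have hzS : ∀ N, Integrable (fun ω => ζ ω * S N ω) P := fun N =>
    bint (hζ.mul (hSm N)) (1 * ∑ c ∈ Finset.range N, |a c|)
      (fun ω => by
        rw [abs_mul]
        exact mul_le_mul (hζ1 ω) (hSb N ω) (abs_nonneg _) zero_le_one)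
  have hB : ∀ N, ∫ ω, S N ω * S N ω ∂P = ∑ c ∈ Finset.range N, a c ^ 2 := by
    intro N
    induction N with
    | zero => simp [S]
    | succ N ih =>
      have h1 : ∀ ω, S (N + 1) ω * S (N + 1) ω =
          S N ω * S N ω + (2 * a N) * (x N ω * S N ω) + a N ^ 2 := by
        intro ω
        have h2 : S (N + 1) ω = S N ω + a N * x N ω := Finset.sum_range_succ _ _
        rw [h2]
        have h3 := sign_sq (hsx N ω)
        linear_combination (a N ^ 2) * h3
      simp only [h1]
      rw [int3 (hSS N) (hxS N) (integrable_const _), hO, ih, mul_zero, add_zero,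
        integral_const, Finset.sum_range_succ]
      simp
  have hle : ∀ N, ∑ c ∈ Finset.range N, a c ^ 2 ≤ 1 := by
    intro N
    have hzz : Integrable (fun ω => ζ ω * ζ ω) P :=
      bint (hζ.mul hζ) 1 (fun ω => by
        rw [abs_mul]
        exact mul_le_one₀ (hζ1 ω) (abs_nonneg _) (hζ1 ω))
    have hz1 : ∫ ω, ζ ω * ζ ω ∂P ≤ 1 := by
      have : ∫ ω, ζ ω * ζ ω ∂P ≤ ∫ _ω, (1 : ℝ) ∂P := by
        refine integral_mono hzz (integrable_const _) fun ω => ?_
        change ζ ω * ζ ω ≤ 1
        rw [← abs_mul_abs_self]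
        exact mul_le_one₀ (hζ1 ω) (abs_nonneg _) (hζ1 ω)
      simpa using this
    have h0 : 0 ≤ ∫ ω, (ζ ω - S N ω) * (ζ ω - S N ω) ∂P :=
      integral_nonneg fun ω => mul_self_nonneg _
    have h1 : ∀ ω, (ζ ω - S N ω) * (ζ ω - S N ω) =
        ζ ω * ζ ω + (-2) * (ζ ω * S N ω) + S N ω * S N ω := fun ω => by ring
    simp only [h1] at h0
    rw [int3 hzz (hzS N) (hSS N), hA, hB] at h0
    linarith
  have hsum : Summable (fun c => a c ^ 2) :=
    summable_of_sum_range_le (fun c => sq_nonneg _) hle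
  have ht := hsum.tendsto_atTop_zero
  have ht2 : Tendsto (fun c => Real.sqrt (a c ^ 2)) atTop (𝓝 (Real.sqrt 0)) :=
    (Real.continuous_sqrt.tendsto 0).comp ht
  rw [Real.sqrt_zero] at ht2
  simp only [Real.sqrt_sq_eq_abs] at ht2
  exact (tendsto_zero_iff_abs_tendsto_zero a).2 ht2

end Pool.Agent.W300.FD
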